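import Pool.Agent.KS6_79.RK.Typ
import Pool.Graph.R_seed8.TH511.J655

/-!
The case of rainbow `K_4`: the types, and the typical colourings.
-/

set_option autoImplicit false

namespace Pool.Agent.KS6_79.RK

open Finset
open Pool.Agent.TH477.PA

theorem norm_gen {n r : ℕ} (G : SimpleGraph (Fin n)) (Q : (G.edgeSet → Fin r) → Prop) :
    ∑ ψ : Sym2 (Fin n) → Fin r, ind (Q (ψ ∘ Subtype.val)) =
      (Nat.card {c : G.edgeSet → Fin r // Q c} : ℝ) *
        (r : ℝ) ^ (Fintype.card (Sym2 (Fin n)) - Nat.card G.edgeSet) := by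
  classical
  have h2 := Pool.Agent.TH830.J644.card_comp_inj r (Subtype.val : G.edgeSet → Sym2 (Fin n))
    Subtype.val_injective Q
  rw [← Nat.card_eq_fintype_card (α := G.edgeSet)] at h2
  rw [← natCard_ind, h2]
  push_cast
  rfl

theorem card_sub_le {α : Type} [Finite α] {P Q : α → Prop} (h : ∀ a, P a → Q a) :
    Nat.card {a // P a} ≤ Nat.card {a // Q a} :=
  Nat.card_le_card_of_injective (Subtype.map id h)
    (Subtype.map_injective h Function.injective_id)

/-- the condition of the library in terms of colourings of the edges -/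
def GoodC {n r : ℕ} (k s : ℕ) (G : SimpleGraph (Fin n)) (c : G.edgeSet → Fin r) : Prop :=
  ∀ S : Finset (Fin n), G.IsNClique k S →
    Set.ncard {i : Fin r | ∃ e : G.edgeSet, (∀ v ∈ (e : Sym2 (Fin n)), v ∈ S) ∧ c e = i} < s

theorem good_iff {n r k s : ℕ} (G : SimpleGraph (Fin n)) (ψ : Sym2 (Fin n) → Fin r) :
    Good k s G Set.univ ψ ↔ GoodC k s G (ψ ∘ Subtype.val) :=
  Pool.Agent.TH830.J644.good_univ_iff G ψ

/-- `c` is perfect of type `(p, A)` -/
def PerfC {n r : ℕ} (G : SimpleGraph (Fin n)) (p : ℕ) (A : Finset (Fin r))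
    (c : G.edgeSet → Fin r) : Prop :=
  ∃ κ : Fin n → ℕ, (∀ x, κ x < p) ∧ ∀ x y, ∀ h : G.Adj x y, κ x = κ y → c ⟨s(x, y), h⟩ ∈ A

theorem perf_iff {n r p : ℕ} (G : SimpleGraph (Fin n)) (A : Finset (Fin r))
    (ψ : Sym2 (Fin n) → Fin r) : Perf G p A ψ ↔ PerfC G p A (ψ ∘ Subtype.val) := by
  constructor
  · rintro ⟨κ, h1, h2⟩
    exact ⟨κ, h1, fun x y h hk => h2 x y h hk⟩
  · rintro ⟨κ, h1, h2⟩
    exact ⟨κ, h1, fun x y h hk => h2 x y h hk⟩

/-- almost all good colourings are perfect, for colourings of the edges -/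
theorem typC (k D r : ℕ) (ℓ : ℝ) (hO : Opt k D r ℓ) (hT : ∃ p, IsType k D r ℓ p) :
    ∃ γ : ℝ, 0 < γ ∧ ∃ n0 : ℕ, ∀ n, n0 ≤ n → ∀ G : SimpleGraph (Fin n),
      (Nat.card {c : G.edgeSet → Fin r // GoodC k (k.choose 2 + 1 - D) G c ∧
        ¬ ∃ (p : ℕ) (A : Finset (Fin r)), IsType k D r ℓ p ∧ A.card = ct k D p ∧
          PerfC G p A c} : ℝ) ≤
      Real.exp (-(γ * n)) * (Fmax r k (k.choose 2 + 1 - D) n : ℝ) := by
  obtain ⟨γ, hγ, n0, H⟩ := typ k D r ℓ hO hT
  refine ⟨γ, hγ, n0, fun n hn G => ?_⟩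
  have h1 := H n hn G
  have h2 := norm_gen (r := r) G (fun c => GoodC k (k.choose 2 + 1 - D) G c ∧
        ¬ ∃ (p : ℕ) (A : Finset (Fin r)), IsType k D r ℓ p ∧ A.card = ct k D p ∧
          PerfC G p A c)
  have h3 : ∑ ψ : Sym2 (Fin n) → Fin r, ind (Good k (k.choose 2 + 1 - D) G Set.univ ψ ∧
        ¬ ∃ (p : ℕ) (A : Finset (Fin r)), IsType k D r ℓ p ∧ A.card = ct k D p ∧
          Perf G p A ψ) =
      ∑ ψ : Sym2 (Fin n) → Fin r, ind ((fun c => GoodC k (k.choose 2 + 1 - D) G c ∧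
        ¬ ∃ (p : ℕ) (A : Finset (Fin r)), IsType k D r ℓ p ∧ A.card = ct k D p ∧
          PerfC G p A c) (ψ ∘ Subtype.val)) := by
    refine Finset.sum_congr rfl fun ψ _ => ?_
    apply ind_congr
    simp only [good_iff, perf_iff]
  rw [h3, h2, ← mul_assoc] at h1
  have hr : (0 : ℝ) < r := by
    have := hO.r3
    exact_mod_cast (by omega : 0 < r)
  exact le_of_mul_le_mul_right h1 (pow_pos hr _)

theorem log_lo {r : ℕ} (h6 : 6 ≤ r) (h11 : r ≤ 11) : 2 * Real.log r < 3 * Real.log 5 := by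
  have h0 : (0 : ℝ) < r := by exact_mod_cast (by omega : 0 < r)
  have h1 : Real.log ((r : ℝ) ^ 2) < Real.log ((5 : ℝ) ^ 3) := by
    apply Real.log_lt_log (by positivity)
    have h2 : (r : ℝ) ≤ 11 := by exact_mod_cast h11
    nlinarith
  rw [Real.log_pow, Real.log_pow] at h1
  push_cast at h1
  exact h1

theorem log_hi {r : ℕ} (h12 : 12 ≤ r) : 3 * Real.log 5 < 2 * Real.log r := by
  have h0 : (0 : ℝ) < r := by exact_mod_cast (by omega : 0 < r)
  have h1 : Real.log ((5 : ℝ) ^ 3) < Real.log ((r : ℝ) ^ 2) := by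
    apply Real.log_lt_log (by positivity)
    have h2 : (12 : ℝ) ≤ r := by exact_mod_cast h12
    nlinarith
  rw [Real.log_pow, Real.log_pow] at h1
  push_cast at h1
  exact h1

theorem ct41 : ct 4 1 1 = 5 := by decide
theorem ct42 : ct 4 1 2 = 1 := by decide
theorem ct43 : ct 4 1 3 = 0 := by decide

theorem opt_lo {r : ℕ} (h6 : 6 ≤ r) (h11 : r ≤ 11) : Opt 4 1 r (Real.log r - Real.log 5) where
  hk := by norm_num
  hD := le_refl _
  hDC := by decide
  hr := by
    have : (4 : ℕ).choose 2 = 6 := by decide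
    omega
  pos := by
    have h2 : (5 : ℝ) < r := by exact_mod_cast (by omega : 5 < r)
    have := Real.log_lt_log (by norm_num) h2
    linarith
  o1 := by
    have := log_lo h6 h11
    norm_num
    linarith
  o2 := by
    have : (4 : ℕ).choose 2 - 1 = 5 := by decide
    rw [this]
    norm_num
  o3 := by
    intro p c h1 h2 h3
    omega

theorem opt_hi {r : ℕ} (h12 : 12 ≤ r) : Opt 4 1 r (Real.log r / 3) where
  hk := by norm_num
  hD := le_refl _
  hDC := by decide
  hr := by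
    have : (4 : ℕ).choose 2 = 6 := by decide
    omega
  pos := by
    have h2 : (1 : ℝ) < r := by exact_mod_cast (by omega : 1 < r)
    have := Real.log_pos h2
    linarith
  o1 := by
    norm_num
    linarith
  o2 := by
    have : (4 : ℕ).choose 2 - 1 = 5 := by decide
    rw [this]
    have := log_hi h12
    push_cast
    linarith
  o3 := by
    intro p c h1 h2 h3
    omega

theorem type_lo {r p : ℕ} (h6 : 6 ≤ r) (h11 : r ≤ 11) :
    IsType 4 1 r (Real.log r - Real.log 5) p ↔ p = 1 := by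
  constructor
  · rintro ⟨h1, h2, h3, h4⟩
    have : p = 1 ∨ p = 2 ∨ p = 3 := by omega
    rcases this with h | h | h
    · exact h
    · subst h
      rw [ct42] at h3
      omega
    · exfalso
      subst h
      rw [ct43] at h4
      have := log_lo h6 h11
      push_cast at h4
      rw [Real.log_zero] at h4
      linarith
  · rintro rfl
    refine ⟨le_refl _, by norm_num, Or.inl rfl, ?_⟩
    rw [ct41]
    push_cast
    ring

theorem type_hi {r p : ℕ} (h12 : 12 ≤ r) : IsType 4 1 r (Real.log r / 3) p ↔ p = 3 := by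
  constructor
  · rintro ⟨h1, h2, h3, h4⟩
    have : p = 1 ∨ p = 2 ∨ p = 3 := by omega
    rcases this with h | h | h
    · exfalso
      subst h
      rw [ct41] at h4
      have := log_hi h12
      push_cast at h4
      linarith
    · subst h
      rw [ct42] at h3
      omega
    · exact h
  · rintro rfl
    refine ⟨by norm_num, by norm_num, Or.inr ⟨by norm_num, Or.inl (by norm_num)⟩, ?_⟩
    rw [ct43]
    push_cast
    rw [Real.log_zero]
    ring

theorem perfC_one {n r : ℕ} (G : SimpleGraph (Fin n)) (A : Finset (Fin r))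
    (c : G.edgeSet → Fin r) : PerfC G 1 A c ↔ ∀ e, c e ∈ A := by
  constructor
  · rintro ⟨κ, h1, h2⟩ ⟨e, he⟩
    induction e using Sym2.ind with
    | _ x y =>
      exact h2 x y he (by have := h1 x; have := h1 y; omega)
  · intro h
    exact ⟨fun _ => 0, fun _ => by norm_num, fun x y hxy _ => h _⟩

theorem perfC_three {n r : ℕ} (G : SimpleGraph (Fin n)) (c : G.edgeSet → Fin r)
    (h : PerfC G 3 ∅ c) : G.Colorable 3 := by
  obtain ⟨κ, h1, h2⟩ := h
  refine ⟨SimpleGraph.Coloring.mk (fun x => (⟨κ x, h1 x⟩ : Fin 3)) ?_⟩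
  intro x y hxy heq
  have := h2 x y hxy (congrArg Fin.val heq)
  exact absurd this (Finset.notMem_empty _)

/-- few colours: all but an exponentially small part of the colourings use at most five colours -/
theorem typ_lo {r : ℕ} (h6 : 6 ≤ r) (h11 : r ≤ 11) :
    ∃ γ : ℝ, 0 < γ ∧ ∃ n0 : ℕ, ∀ n, n0 ≤ n → ∀ G : SimpleGraph (Fin n),
      (Nat.card {c : G.edgeSet → Fin r // GoodC 4 6 G c ∧ 6 ≤ (Set.range c).ncard} : ℝ) ≤
      Real.exp (-(γ * n)) * (Fmax r 4 6 n : ℝ) := by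
  classical
  obtain ⟨γ, hγ, n0, H⟩ := typC 4 1 r _ (opt_lo h6 h11) ⟨1, (type_lo h6 h11).2 rfl⟩
  have e6 : (4 : ℕ).choose 2 + 1 - 1 = 6 := by decide
  rw [e6] at H
  refine ⟨γ, hγ, n0, fun n hn G => le_trans ?_ (H n hn G)⟩
  have hcard : Nat.card {c : G.edgeSet → Fin r // GoodC 4 6 G c ∧ 6 ≤ (Set.range c).ncard} ≤
      Nat.card {c : G.edgeSet → Fin r // GoodC 4 6 G c ∧
        ¬ ∃ (p : ℕ) (A : Finset (Fin r)), IsType 4 1 r (Real.log r - Real.log 5) p ∧
          A.card = ct 4 1 p ∧ PerfC G p A c} := by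
    apply card_sub_le
    rintro c ⟨hc1, hc2⟩
    refine ⟨hc1, ?_⟩
    rintro ⟨p, A, h1, h2, h3⟩
    rw [type_lo h6 h11] at h1
    subst h1
    rw [ct41] at h2
    rw [perfC_one] at h3
    have h4 : Set.range c ⊆ (A : Set (Fin r)) := by
      rintro _ ⟨e, rfl⟩
      exact h3 e
    have h5 := Set.ncard_le_ncard h4 (Set.toFinite _)
    rw [Set.ncard_coe_finset, h2] at h5
    omega
  exact_mod_cast hcard

/-- many colours: graphs which are not 3-colourable have few colourings -/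
theorem typ_hi {r : ℕ} (h12 : 12 ≤ r) :
    ∃ γ : ℝ, 0 < γ ∧ ∃ n0 : ℕ, ∀ n, n0 ≤ n → ∀ G : SimpleGraph (Fin n), ¬ G.Colorable 3 →
      (Nat.card {c : G.edgeSet → Fin r // GoodC 4 6 G c} : ℝ) ≤
      Real.exp (-(γ * n)) * (Fmax r 4 6 n : ℝ) := by
  classical
  obtain ⟨γ, hγ, n0, H⟩ := typC 4 1 r _ (opt_hi h12) ⟨3, (type_hi h12).2 rfl⟩
  have e6 : (4 : ℕ).choose 2 + 1 - 1 = 6 := by decide
  rw [e6] at H
  refine ⟨γ, hγ, n0, fun n hn G hG => le_trans ?_ (H n hn G)⟩
  have hcard : Nat.card {c : G.edgeSet → Fin r // GoodC 4 6 G c} ≤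
      Nat.card {c : G.edgeSet → Fin r // GoodC 4 6 G c ∧
        ¬ ∃ (p : ℕ) (A : Finset (Fin r)), IsType 4 1 r (Real.log r / 3) p ∧
          A.card = ct 4 1 p ∧ PerfC G p A c} := by
    apply card_sub_le
    intro c hc
    refine ⟨hc, ?_⟩
    rintro ⟨p, A, h1, h2, h3⟩
    rw [type_hi h12] at h1
    subst h1
    rw [ct43, Finset.card_eq_zero] at h2
    subst h2
    exact hG (perfC_three G c h3)
  exact_mod_cast hcard

end Pool.Agent.KS6_79.RK
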