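import Pool.Agent.KS6_79.RK.K4a

/-!
Colourings with at most five colours.
-/

set_option autoImplicit false

namespace Pool.Agent.KS6_79.RK

open Finset

section count

variable {E : Type} [Fintype E] [DecidableEq E] {r : ℕ}

theorem natCard_filter (P : (E → Fin r) → Prop) [DecidablePred P] :
    Nat.card {c : E → Fin r // P c} = (univ.filter P).card := by
  rw [Nat.card_eq_fintype_card, Fintype.card_subtype]

theorem card_piC (A : Finset (Fin r)) :
    (Fintype.piFinset (fun _ : E => A)).card = A.card ^ Fintype.card E := by
  rw [Fintype.card_piFinset, prod_const, card_univ]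

omit [DecidableEq E] in
theorem range_ncard (c : E → Fin r) : (Set.range c).ncard = (univ.image c).card := by
  rw [← Set.ncard_coe_finset, Finset.coe_image, Finset.coe_univ, Set.image_univ]

/-- at most `m` colours: upper bound -/
theorem few_upper (m : ℕ) (hr : m ≤ r) :
    Nat.card {c : E → Fin r // (Set.range c).ncard ≤ m} ≤ r.choose m * m ^ Fintype.card E := by
  classical
  rw [natCard_filter]
  have h1 : (univ.filter fun c : E → Fin r => (Set.range c).ncard ≤ m) ⊆
      (powersetCard m (univ : Finset (Fin r))).biUnion
        (fun A => Fintype.piFinset (fun _ : E => A)) := by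
    intro c hc
    rw [mem_filter, range_ncard] at hc
    obtain ⟨A, hA1, -, hA2⟩ := Finset.exists_subsuperset_card_eq
      (Finset.subset_univ (univ.image c)) hc.2 (by simpa using hr)
    rw [mem_biUnion]
    refine ⟨A, mem_powersetCard.2 ⟨subset_univ _, hA2⟩, ?_⟩
    rw [Fintype.mem_piFinset]
    exact fun e => hA1 (mem_image_of_mem _ (mem_univ e))
  refine (card_le_card h1).trans (card_biUnion_le.trans ?_)
  refine (sum_le_sum (g := fun _ => m ^ Fintype.card E) fun A hA => ?_).trans ?_
  · rw [card_piC, (mem_powersetCard.1 hA).2]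
  · rw [sum_const, card_powersetCard, card_univ, Fintype.card_fin, smul_eq_mul]

/-- the colourings with the set `A` of colours -/
theorem onto_lower (A : Finset (Fin r)) :
    A.card ^ Fintype.card E ≤ (univ.filter fun c : E → Fin r => univ.image c = A).card +
      A.card * (A.card - 1) ^ Fintype.card E := by
  classical
  have h1 : Fintype.piFinset (fun _ : E => A) ⊆
      (univ.filter fun c : E → Fin r => univ.image c = A) ∪
        A.biUnion (fun a => Fintype.piFinset (fun _ : E => A.erase a)) := by
    intro c hc
    rw [Fintype.mem_piFinset] at hc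
    rw [mem_union]
    by_cases h : univ.image c = A
    · left
      exact mem_filter.2 ⟨mem_univ _, h⟩
    · right
      have h2 : ∃ a ∈ A, a ∉ univ.image c := by
        by_contra hcon
        push Not at hcon
        apply h
        apply Finset.Subset.antisymm
        · intro x hx
          rw [mem_image] at hx
          obtain ⟨e, -, rfl⟩ := hx
          exact hc e
        · exact hcon
      obtain ⟨a, ha, ha'⟩ := h2
      rw [mem_biUnion]
      refine ⟨a, ha, ?_⟩
      rw [Fintype.mem_piFinset]
      intro e
      rw [mem_erase]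
      refine ⟨?_, hc e⟩
      intro he
      exact ha' (he ▸ mem_image_of_mem _ (mem_univ e))
  have h2 := card_le_card h1
  rw [card_piC] at h2
  refine h2.trans ((card_union_le _ _).trans ?_)
  apply Nat.add_le_add_left
  refine card_biUnion_le.trans ?_
  refine (sum_le_sum (g := fun _ => (A.card - 1) ^ Fintype.card E) fun a ha => ?_).trans ?_
  · rw [card_piC, card_erase_of_mem ha]
  · rw [sum_const, smul_eq_mul]

/-- at most `m` colours: lower bound -/
theorem few_lower (m : ℕ) :
    r.choose m * m ^ Fintype.card E ≤
      Nat.card {c : E → Fin r // (Set.range c).ncard ≤ m} +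
        r.choose m * (m * (m - 1) ^ Fintype.card E) := by
  classical
  rw [natCard_filter]
  have h1 : (univ.filter fun c : E → Fin r => (univ.image c).card = m) ⊆
      (univ.filter fun c : E → Fin r => (Set.range c).ncard ≤ m) := by
    intro c hc
    rw [mem_filter] at hc ⊢
    refine ⟨mem_univ _, ?_⟩
    rw [range_ncard]
    exact hc.2.le
  have h2 : (univ.filter fun c : E → Fin r => (univ.image c).card = m).card =
      ∑ A ∈ powersetCard m (univ : Finset (Fin r)),
        (univ.filter fun c : E → Fin r => univ.image c = A).card := by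
    rw [Finset.card_eq_sum_card_fiberwise (f := fun c : E → Fin r => univ.image c)
      (t := powersetCard m (univ : Finset (Fin r)))]
    · refine sum_congr rfl fun A hA => ?_
      congr 1
      ext c
      rw [mem_filter, mem_filter, mem_filter]
      constructor
      · rintro ⟨_, h⟩
        exact ⟨mem_univ _, h⟩
      · rintro ⟨_, h⟩
        exact ⟨⟨mem_univ _, by rw [h]; exact (mem_powersetCard.1 hA).2⟩, h⟩
    · intro c hc
      have hc' := (mem_filter.1 (mem_coe.1 hc)).2
      exact mem_coe.2 (mem_powersetCard.2 ⟨subset_univ _, hc'⟩)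
  have h3 : ∑ _A ∈ powersetCard m (univ : Finset (Fin r)), m ^ Fintype.card E ≤
      ∑ A ∈ powersetCard m (univ : Finset (Fin r)),
        ((univ.filter fun c : E → Fin r => univ.image c = A).card +
          m * (m - 1) ^ Fintype.card E) := by
    refine sum_le_sum fun A hA => ?_
    have := onto_lower (E := E) A
    rw [(mem_powersetCard.1 hA).2] at this
    exact this
  rw [sum_add_distrib, ← h2, sum_const, sum_const, card_powersetCard, card_univ, Fintype.card_fin,
    smul_eq_mul, smul_eq_mul] at h3
  exact h3.trans (Nat.add_le_add_right (card_le_card h1) _)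

end count

theorem goodC_of_few {n r : ℕ} (G : SimpleGraph (Fin n)) (c : G.edgeSet → Fin r)
    (h : (Set.range c).ncard ≤ 5) : GoodC 4 6 G c := by
  intro S _
  have h1 : {i : Fin r | ∃ e : G.edgeSet, (∀ v ∈ (e : Sym2 (Fin n)), v ∈ S) ∧ c e = i} ⊆
      Set.range c := by
    rintro i ⟨e, -, rfl⟩
    exact ⟨e, rfl⟩
  have h2 := Set.ncard_le_ncard h1 (Set.toFinite _)
  omega

/-- the number of good colourings -/
theorem card_good_le {n r : ℕ} (hr : 5 ≤ r) (G : SimpleGraph (Fin n)) :
    Nat.card {c : G.edgeSet → Fin r // GoodC 4 6 G c} ≤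
      Nat.card {c : G.edgeSet → Fin r // GoodC 4 6 G c ∧ 6 ≤ (Set.range c).ncard} +
        r.choose 5 * 5 ^ Nat.card G.edgeSet := by
  classical
  have h1 := few_upper (E := G.edgeSet) (r := r) 5 hr
  rw [← Nat.card_eq_fintype_card (α := G.edgeSet)] at h1
  refine le_trans ?_ (Nat.add_le_add_left h1 _)
  rw [natCard_filter, natCard_filter, natCard_filter]
  refine (card_le_card ?_).trans (card_union_le _ _)
  intro c hc
  rw [mem_filter] at hc
  rw [mem_union, mem_filter, mem_filter]
  rcases Nat.lt_or_ge (Set.range c).ncard 6 with h | h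
  · exact Or.inr ⟨mem_univ _, by omega⟩
  · exact Or.inl ⟨mem_univ _, hc.2, h⟩

theorem le_card_good {n r : ℕ} (G : SimpleGraph (Fin n)) :
    r.choose 5 * 5 ^ Nat.card G.edgeSet ≤ Nat.card {c : G.edgeSet → Fin r // GoodC 4 6 G c} +
      r.choose 5 * (5 * 4 ^ Nat.card G.edgeSet) := by
  classical
  have h1 := few_lower (E := G.edgeSet) (r := r) 5
  rw [← Nat.card_eq_fintype_card (α := G.edgeSet)] at h1
  refine h1.trans (Nat.add_le_add_right ?_ _)
  exact card_sub_le fun c hc => goodC_of_few G c hc

end Pool.Agent.KS6_79.RK
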