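import Pool.Agent.KS6_79.RK.K4b

/-!
The asymptotics for `K_4`.
-/

set_option autoImplicit false

namespace Pool.Agent.KS6_79.RK

open Finset
open Pool.Agent.TH477.PA

theorem small_exp (K γ : ℝ) (hγ : 0 < γ) : ∃ n0 : ℕ, ∀ n : ℕ, n0 ≤ n →
    K * Real.exp (-(γ * n)) ≤ 1 := by
  refine ⟨⌈|K| / γ⌉₊, fun n hn => ?_⟩
  have h1 : |K| / γ ≤ n := (Nat.le_ceil _).trans (by exact_mod_cast hn)
  rw [div_le_iff₀ hγ] at h1
  have h2 : K ≤ Real.exp (γ * n) := by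
    have := Real.add_one_le_exp (γ * n)
    have := le_abs_self K
    nlinarith
  calc K * Real.exp (-(γ * n)) ≤ Real.exp (γ * n) * Real.exp (-(γ * n)) :=
        mul_le_mul_of_nonneg_right h2 (Real.exp_pos _).le
    _ = 1 := by rw [← Real.exp_add]; simp

theorem quad_exp (K b : ℝ) : ∃ n0 : ℕ, ∀ n : ℕ, n0 ≤ n →
    K * 4 ^ n.choose 2 ≤ Real.exp (-(b * n)) * 5 ^ n.choose 2 := by
  have h1 := (tendsto_pow_atTop_atTop_of_one_lt (show (1 : ℝ) < 5 / 4 by norm_num)).eventually_ge_atTop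
    (Real.exp b * max K 1)
  rw [Filter.eventually_atTop] at h1
  obtain ⟨m0, hm0⟩ := h1
  refine ⟨2 * m0 + 1, fun n hn => ?_⟩
  have hN : n * m0 ≤ n.choose 2 := by
    rw [Nat.choose_two_right, Nat.le_div_iff_mul_le (by norm_num), mul_assoc]
    exact Nat.mul_le_mul_left _ (by omega)
  have h2 : (Real.exp b * max K 1) ^ n ≤ (5 / 4 : ℝ) ^ n.choose 2 := by
    calc (Real.exp b * max K 1) ^ n ≤ ((5 / 4 : ℝ) ^ m0) ^ n :=
          pow_le_pow_left₀ (mul_nonneg (Real.exp_pos _).le (le_max_of_le_right zero_le_one))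
            (hm0 m0 le_rfl) _
      _ = (5 / 4 : ℝ) ^ (n * m0) := by rw [← pow_mul, mul_comm m0 n]
      _ ≤ _ := pow_le_pow_right₀ (by norm_num) hN
  have h3 : K ≤ max K 1 ^ n := by
    have h4 : (1 : ℝ) ≤ max K 1 := le_max_right _ _
    calc K ≤ max K 1 := le_max_left _ _
      _ = max K 1 ^ 1 := (pow_one _).symm
      _ ≤ _ := pow_le_pow_right₀ h4 (by omega)
  have h5 : K * Real.exp (b * n) ≤ (5 / 4 : ℝ) ^ n.choose 2 := by
    refine le_trans ?_ h2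
    rw [mul_pow, ← Real.exp_nat_mul, mul_comm]
    rw [mul_comm b (n : ℝ)]
    exact mul_le_mul_of_nonneg_left h3 (Real.exp_pos _).le
  have h6 : (5 : ℝ) ^ n.choose 2 = (5 / 4 : ℝ) ^ n.choose 2 * 4 ^ n.choose 2 := by
    rw [← mul_pow]; norm_num
  rw [h6]
  have h7 : K ≤ Real.exp (-(b * n)) * (5 / 4 : ℝ) ^ n.choose 2 := by
    have h8 := mul_le_mul_of_nonneg_left h5 (Real.exp_pos (-(b * n))).le
    refine le_trans (le_of_eq ?_) h8
    rw [mul_comm K, ← mul_assoc, ← Real.exp_add]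
    simp
  calc K * 4 ^ n.choose 2 ≤ (Real.exp (-(b * n)) * (5 / 4 : ℝ) ^ n.choose 2) * 4 ^ n.choose 2 :=
        mul_le_mul_of_nonneg_right h7 (by positivity)
    _ = _ := by ring

theorem card_top (n : ℕ) : Nat.card (⊤ : SimpleGraph (Fin n)).edgeSet = n.choose 2 := by
  classical
  rw [Nat.card_eq_fintype_card, ← SimpleGraph.edgeFinset_card,
    SimpleGraph.card_edgeFinset_top_eq_card_choose_two, Fintype.card_fin]

theorem card_le_top {n : ℕ} (G : SimpleGraph (Fin n)) : Nat.card G.edgeSet ≤ n.choose 2 := by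
  rw [← card_top]
  exact Nat.card_mono (Set.toFinite _) (SimpleGraph.edgeSet_mono le_top)

theorem card_lt_top {n : ℕ} (G : SimpleGraph (Fin n)) (h : G ≠ ⊤) :
    Nat.card G.edgeSet + 1 ≤ n.choose 2 := by
  rw [← card_top]
  exact Set.ncard_lt_ncard (SimpleGraph.edgeSet_ssubset_edgeSet.2 (lt_top_iff_ne_top.2 h))
    (Set.toFinite _)

theorem F_eq {n r : ℕ} (G : SimpleGraph (Fin n)) :
    F r 4 6 G = Nat.card {c : G.edgeSet → Fin r // GoodC 4 6 G c} := rfl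

theorem main_lo {r : ℕ} (h6 : 6 ≤ r) (h11 : r ≤ 11) :
    ∃ γ : ℝ, 0 < γ ∧ ∃ n0 : ℕ, ∀ n, n0 ≤ n → ∀ G : SimpleGraph (Fin n),
      (Nat.card {c : G.edgeSet → Fin r // GoodC 4 6 G c ∧ 6 ≤ (Set.range c).ncard} : ℝ) ≤
        Real.exp (-(γ * n)) * 5 ^ n.choose 2 ∧
      |(F r 4 6 G : ℝ) - r.choose 5 * 5 ^ Nat.card G.edgeSet| ≤
        Real.exp (-(γ * n)) * 5 ^ n.choose 2 ∧
      (G ≠ ⊤ → (F r 4 6 G : ℝ) ≤
        (1 / 5 + Real.exp (-(γ * n))) * F r 4 6 (⊤ : SimpleGraph (Fin n))) := by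
  obtain ⟨γ0, hγ0, n1, H⟩ := typ_lo h6 h11
  obtain ⟨C, hC⟩ : ∃ C : ℝ, C = (r.choose 5 : ℝ) := ⟨_, rfl⟩
  have hC6 : 6 ≤ C := by
    rw [hC]
    have h1 : (6 : ℕ).choose 5 ≤ r.choose 5 := Nat.choose_le_choose 5 h6
    have h2 : (6 : ℕ).choose 5 = 6 := by decide
    rw [h2] at h1
    exact_mod_cast h1
  obtain ⟨n2, H2⟩ := small_exp 2 γ0 hγ0
  obtain ⟨n3, H3⟩ := small_exp (2 * C) (γ0 / 2) (by linarith)
  obtain ⟨n4, H4⟩ := quad_exp (5 * C) (γ0 / 2)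
  obtain ⟨n5, H5⟩ := small_exp 2 (γ0 / 4) (by linarith)
  refine ⟨γ0 / 4, by linarith, max (max n1 n2) (max (max n3 n4) n5), fun n hn => ?_⟩
  have hn1 : n1 ≤ n := ((le_max_left _ _).trans (le_max_left _ _)).trans hn
  have hn2 : n2 ≤ n := ((le_max_right _ _).trans (le_max_left _ _)).trans hn
  have hn3 : n3 ≤ n :=
    ((le_max_left _ _).trans ((le_max_left _ _).trans (le_max_right _ _))).trans hn
  have hn4 : n4 ≤ n :=
    ((le_max_right _ _).trans ((le_max_left _ _).trans (le_max_right _ _))).trans hn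
  have hn5 : n5 ≤ n := ((le_max_right _ _).trans (le_max_right _ _)).trans hn
  have K2 := H2 n hn2
  have K3 := H3 n hn3
  have K4 := H4 n hn4
  have K5 := H5 n hn5
  obtain ⟨N, hN⟩ : ∃ N : ℝ, N = (5 : ℝ) ^ n.choose 2 := ⟨_, rfl⟩
  have hN0 : 0 < N := by rw [hN]; positivity
  obtain ⟨x, hx⟩ : ∃ x : ℝ, x = Real.exp (-(γ0 / 4 * n)) := ⟨_, rfl⟩
  have hx0 : 0 < x := by rw [hx]; exact Real.exp_pos _
  have e2 : Real.exp (-(γ0 / 2 * n)) = x ^ 2 := by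
    rw [hx, ← Real.exp_nat_mul]; congr 1; push_cast; ring
  have e4 : Real.exp (-(γ0 * n)) = x ^ 4 := by
    rw [hx, ← Real.exp_nat_mul]; congr 1; push_cast; ring
  rw [e4] at K2
  rw [e2] at K3 K4
  rw [← hx] at K5
  rw [← hN] at K4
  have H' : ∀ G : SimpleGraph (Fin n),
      (Nat.card {c : G.edgeSet → Fin r // GoodC 4 6 G c ∧ 6 ≤ (Set.range c).ncard} : ℝ) ≤
      x ^ 4 * (Fmax r 4 6 n : ℝ) := fun G => by rw [← e4]; exact H n hn1 G
  have hup : ∀ G : SimpleGraph (Fin n), (F r 4 6 G : ℝ) ≤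
      (Nat.card {c : G.edgeSet → Fin r // GoodC 4 6 G c ∧ 6 ≤ (Set.range c).ncard} : ℝ) +
        C * 5 ^ Nat.card G.edgeSet := by
    intro G
    rw [hC, F_eq]
    exact_mod_cast card_good_le (by omega) G
  have hlow : ∀ G : SimpleGraph (Fin n), C * 5 ^ Nat.card G.edgeSet ≤ (F r 4 6 G : ℝ) +
      C * (5 * 4 ^ Nat.card G.edgeSet) := by
    intro G
    rw [hC, F_eq]
    exact_mod_cast le_card_good G
  have hle : ∀ G : SimpleGraph (Fin n), (5 : ℝ) ^ Nat.card G.edgeSet ≤ N := by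
    intro G
    rw [hN]
    exact pow_le_pow_right₀ (by norm_num) (card_le_top G)
  have hle4 : ∀ G : SimpleGraph (Fin n), (4 : ℝ) ^ Nat.card G.edgeSet ≤ 4 ^ n.choose 2 := by
    intro G
    exact pow_le_pow_right₀ (by norm_num) (card_le_top G)
  -- the maximum
  have hmax : (Fmax r 4 6 n : ℝ) ≤ 2 * C * N := by
    obtain ⟨G0, hG0⟩ := Pool.Agent.TH830.J643.exists_Fmax r 4 6 n
    have h1 := hup G0
    have h2 := H' G0
    have h3 := hle G0
    have h4 : (0 : ℝ) ≤ (Fmax r 4 6 n : ℝ) := Nat.cast_nonneg _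
    rw [hG0] at h1
    nlinarith
  have ha : ∀ G : SimpleGraph (Fin n),
      (Nat.card {c : G.edgeSet → Fin r // GoodC 4 6 G c ∧ 6 ≤ (Set.range c).ncard} : ℝ) ≤
      x ^ 2 * N := by
    intro G
    have h1 := H' G
    have h2 : x ^ 4 * (Fmax r 4 6 n : ℝ) ≤ x ^ 4 * (2 * C * N) :=
      mul_le_mul_of_nonneg_left hmax (by positivity)
    have h3 : x ^ 4 * (2 * C * N) = (2 * C * x ^ 2) * (x ^ 2 * N) := by ring
    have h4 : (2 * C * x ^ 2) * (x ^ 2 * N) ≤ 1 * (x ^ 2 * N) :=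
      mul_le_mul_of_nonneg_right K3 (by positivity)
    linarith
  have hb : ∀ G : SimpleGraph (Fin n),
      |(F r 4 6 G : ℝ) - C * 5 ^ Nat.card G.edgeSet| ≤ x ^ 2 * N := by
    intro G
    have h1 := hup G
    have h2 := ha G
    have h3 := hlow G
    have h4 : C * (5 * 4 ^ Nat.card G.edgeSet) ≤ 5 * C * 4 ^ n.choose 2 := by
      have := mul_le_mul_of_nonneg_left (hle4 G) (show 0 ≤ 5 * C by linarith)
      linarith
    rw [abs_le]
    constructor <;> linarith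
  have hx1 : x ≤ 1 / 2 := by linarith
  have hx2 : x ^ 2 ≤ x / 2 := by nlinarith
  intro G
  rw [← hx, ← hN, ← hC]
  refine ⟨?_, ?_, ?_⟩
  · have := ha G
    nlinarith
  · have := hb G
    nlinarith
  · intro hG
    have h1 := (abs_le.1 (hb G)).2
    have h2 := (abs_le.1 (hb ⊤)).1
    rw [card_top, ← hN] at h2
    have h3 : 5 * (5 : ℝ) ^ Nat.card G.edgeSet ≤ N := by
      rw [hN, ← pow_succ']
      exact pow_le_pow_right₀ (by norm_num) (card_lt_top G hG)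
    have h4 : C * (5 * (5 : ℝ) ^ Nat.card G.edgeSet) ≤ C * N :=
      mul_le_mul_of_nonneg_left h3 (by linarith)
    have h5 : x ^ 2 * N ≤ x / 2 * N := mul_le_mul_of_nonneg_right hx2 hN0.le
    have h6 : x / 2 * N ≤ 1 / 4 * N := mul_le_mul_of_nonneg_right (by linarith) hN0.le
    have h7 : 2 * N ≤ (F r 4 6 (⊤ : SimpleGraph (Fin n)) : ℝ) := by nlinarith
    have h8 : x * (2 * N) ≤ x * (F r 4 6 (⊤ : SimpleGraph (Fin n)) : ℝ) :=
      mul_le_mul_of_nonneg_left h7 hx0.le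
    nlinarith

end Pool.Agent.KS6_79.RK
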