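import Pool.Agent.KS6_79.RK.K4c

/-!
Twelve colours and more.
-/

set_option autoImplicit false

namespace Pool.Agent.KS6_79.RK

open Finset
open Pool.Agent.TH477.PA

theorem edge_le_turan {n : ℕ} (G : SimpleGraph (Fin n)) (h : G.CliqueFree 4) :
    Nat.card G.edgeSet ≤ Nat.card (SimpleGraph.turanGraph n 3).edgeSet ∧
      (¬ Nonempty (G ≃g SimpleGraph.turanGraph n 3) →
        Nat.card G.edgeSet + 1 ≤ Nat.card (SimpleGraph.turanGraph n 3).edgeSet) := by
  classical
  have hT := SimpleGraph.isTuranMaximal_turanGraph (n := n) (r := 3) (by norm_num)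
  have h1 := hT.2 h
  have e : ∀ (H : SimpleGraph (Fin n)) [Fintype H.edgeSet],
      H.edgeFinset.card = Nat.card H.edgeSet := by
    intro H _
    rw [SimpleGraph.edgeFinset_card, Nat.card_eq_fintype_card]
  have h2 : Nat.card G.edgeSet ≤ Nat.card (SimpleGraph.turanGraph n 3).edgeSet := by
    rw [← e, ← e]
    exact h1
  refine ⟨h2, fun hne => ?_⟩
  rcases Nat.lt_or_ge (Nat.card G.edgeSet)
    (Nat.card (SimpleGraph.turanGraph n 3).edgeSet) with h3 | h3
  · exact h3
  · exfalso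
    apply hne
    have h4 := SimpleGraph.isTuranMaximal_iff_nonempty_iso_turanGraph (G := G) (r := 3)
      (by norm_num)
    rw [Fintype.card_fin] at h4
    rw [← h4]
    refine ⟨h, ?_⟩
    intro H _ hH
    have h5 := hT.2 hH
    rw [e, e] at h5
    rw [e, e]
    exact h5.trans h3

theorem F_free {n r : ℕ} (G : SimpleGraph (Fin n)) (h : G.CliqueFree 4) :
    F r 4 6 G = r ^ Nat.card G.edgeSet := Pool.Agent.TH511.J655.F_eq_pow r 4 6 G h

theorem colorable_free {n : ℕ} {G : SimpleGraph (Fin n)} (h : G.Colorable 3) :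
    G.CliqueFree 4 := h.cliqueFree (by norm_num)

theorem turan_free (n : ℕ) : (SimpleGraph.turanGraph n 3).CliqueFree 4 :=
  SimpleGraph.turanGraph_cliqueFree (n := n) (r := 3) (by norm_num)

theorem main_hi {r : ℕ} (h12 : 12 ≤ r) :
    ∃ γ : ℝ, 0 < γ ∧ ∃ n0 : ℕ, ∀ n, n0 ≤ n → ∀ G : SimpleGraph (Fin n),
      (¬ G.Colorable 3 → (F r 4 6 G : ℝ) ≤
        Real.exp (-(γ * n)) * F r 4 6 (SimpleGraph.turanGraph n 3)) ∧
      (¬ Nonempty (G ≃g SimpleGraph.turanGraph n 3) →
        r * F r 4 6 G ≤ F r 4 6 (SimpleGraph.turanGraph n 3)) := by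
  obtain ⟨γ, hγ, n1, H⟩ := typ_hi h12
  obtain ⟨n2, H2⟩ := small_exp (r : ℝ) γ hγ
  refine ⟨γ, hγ, max n1 n2, fun n hn => ?_⟩
  have hn1 : n1 ≤ n := (le_max_left _ _).trans hn
  have hn2 : n2 ≤ n := (le_max_right _ _).trans hn
  have K2 := H2 n hn2
  have hr12 : (12 : ℝ) ≤ r := by exact_mod_cast h12
  have hx0 := Real.exp_pos (-(γ * n))
  -- the maximum
  have hmax : Fmax r 4 6 n = F r 4 6 (SimpleGraph.turanGraph n 3) := by
    apply le_antisymm _ (Pool.Agent.TH830.J644.F_le_Fmax r 4 6 n _)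
    obtain ⟨G0, hG0⟩ := Pool.Agent.TH830.J643.exists_Fmax r 4 6 n
    rw [← hG0]
    by_cases h : G0.Colorable 3
    · rw [F_free G0 (colorable_free h), F_free _ (turan_free n)]
      exact Nat.pow_le_pow_right (by omega) (edge_le_turan G0 (colorable_free h)).1
    · exfalso
      have h1 := H n hn1 G0 h
      rw [← F_eq, hG0] at h1
      have h2 : (1 : ℝ) ≤ (Fmax r 4 6 n : ℝ) := by
        exact_mod_cast Pool.Agent.TH830.J643.Fmax_pos r 4 6 n (Or.inl (by omega))
      nlinarith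
  intro G
  have hA : ¬ G.Colorable 3 → (F r 4 6 G : ℝ) ≤
        Real.exp (-(γ * n)) * F r 4 6 (SimpleGraph.turanGraph n 3) := by
    intro h
    rw [← hmax]
    exact H n hn1 G h
  refine ⟨hA, fun hne => ?_⟩
  by_cases h : G.Colorable 3
  · rw [F_free G (colorable_free h), F_free _ (turan_free n), ← pow_succ']
    exact Nat.pow_le_pow_right (by omega) ((edge_le_turan G (colorable_free h)).2 hne)
  · have h1 := hA h
    have h2 : (0 : ℝ) ≤ (F r 4 6 (SimpleGraph.turanGraph n 3) : ℝ) := Nat.cast_nonneg _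
    have h3 : (r : ℝ) * F r 4 6 G ≤ F r 4 6 (SimpleGraph.turanGraph n 3) := by
      calc (r : ℝ) * F r 4 6 G ≤ r * (Real.exp (-(γ * n)) *
            F r 4 6 (SimpleGraph.turanGraph n 3)) :=
            mul_le_mul_of_nonneg_left h1 (by linarith)
        _ = (r * Real.exp (-(γ * n))) * F r 4 6 (SimpleGraph.turanGraph n 3) := by ring
        _ ≤ 1 * F r 4 6 (SimpleGraph.turanGraph n 3) := mul_le_mul_of_nonneg_right K2 h2
        _ = _ := one_mul _
    exact_mod_cast h3

end Pool.Agent.KS6_79.RK
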