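import Pool.Graph.R_seed8.TH477.PA.Main4
import Pool.Graph.R_seed8.TH830.J809

/-!
Almost all good colourings of every graph are perfect: all but an exponentially small part of the
maximum.
-/

set_option autoImplicit false

namespace Pool.Agent.KS6_79.RK

open Finset
open Pool.Agent.TH477.PA

theorem typ (k D r : ℕ) (ℓ : ℝ) (hO : Opt k D r ℓ) (hT : ∃ p, IsType k D r ℓ p) :
    ∃ γ : ℝ, 0 < γ ∧ ∃ n0 : ℕ, ∀ n, n0 ≤ n → ∀ G : SimpleGraph (Fin n),
      ∑ ψ : Sym2 (Fin n) → Fin r, ind (Good k (k.choose 2 + 1 - D) G Set.univ ψ ∧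
        ¬ ∃ (p : ℕ) (A : Finset (Fin r)), IsType k D r ℓ p ∧ A.card = ct k D p ∧ Perf G p A ψ) ≤
      Real.exp (-(γ * n)) * ((Fmax r k (k.choose 2 + 1 - D) n : ℝ) *
        (r : ℝ) ^ (Fintype.card (Sym2 (Fin n)) - Nat.card G.edgeSet)) := by
  have hBad := fun p (hp : IsType k D r ℓ p) =>
    Pool.Agent.TH830.J809.J20_bad_star k D r p ℓ hO hp
  have hk3 := hO.hk
  have hr3 := hO.r3
  have hD1 := hO.hD
  have hDC := hO.hDC
  have hr0 : (0 : ℝ) < r := by exact_mod_cast (by omega : 0 < r)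
  obtain ⟨p0, hp0⟩ := hT
  obtain ⟨β, hβ, hβ1, hVal⟩ := Pool.Agent.TH75.J813.J24_valid_count k D r ℓ hO
    (fun η hη => stability k D r ℓ hO η hη) (fun ε hε => upper k D r ℓ hO ε hε)
  obtain ⟨d1, d2, η, δ, γ, hd12, hη, hδ, hγ, hη8, hδ8, hd, n1, Hc⟩ :=
    consts k D r ℓ hO hBad β hβ hβ1
  obtain ⟨ε, hεdef⟩ : ∃ ε : ℝ, ε = β * δ ^ 2 / 2 := ⟨_, rfl⟩
  have hε : 0 < ε := by rw [hεdef]; positivity
  have hεlt : ε < β * δ ^ 2 := by
    have : 0 < β * δ ^ 2 := by positivity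
    rw [hεdef]; linarith
  obtain ⟨c, hc, n2, HV⟩ := hVal η ε δ hη hε hδ
  obtain ⟨n3, Hgr⟩ := growth k D r p0 ℓ hO hp0 (γ / 2) (by linarith)
  obtain ⟨K, hK, Hlow⟩ := lower hO hp0
  obtain ⟨n4, Hs1⟩ := small1 (γ / 4) (by linarith)
  obtain ⟨n5, Hs2⟩ := small2 c (K + γ / 4) hc
  refine ⟨γ / 4, by linarith, max (max (max n1 n2) (max n3 n4)) (max (max n5 1) (⌈2 / δ⌉₊)), ?_⟩
  intro n hn G
  have hn1 : n1 ≤ n := by
    exact ((le_max_left _ _).trans ((le_max_left _ _).trans (le_max_left _ _))).trans hn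
  have hn2 : n2 ≤ n := by
    exact ((le_max_right _ _).trans ((le_max_left _ _).trans (le_max_left _ _))).trans hn
  have hn3 : n3 ≤ n := by
    exact ((le_max_left _ _).trans ((le_max_right _ _).trans (le_max_left _ _))).trans hn
  have hn4 : n4 ≤ n := by
    exact ((le_max_right _ _).trans ((le_max_right _ _).trans (le_max_left _ _))).trans hn
  have hn5 : n5 ≤ n := by
    exact ((le_max_left _ _).trans ((le_max_left _ _).trans (le_max_right _ _))).trans hn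
  have hn6 : 1 ≤ n := by
    exact ((le_max_right _ _).trans ((le_max_left _ _).trans (le_max_right _ _))).trans hn
  have hn7 : 2 ≤ δ * n := by
    have h1 : ⌈2 / δ⌉₊ ≤ n := ((le_max_right _ _).trans (le_max_right _ _)).trans hn
    have h2 : (2 / δ : ℝ) ≤ n := (Nat.le_ceil _).trans (by exact_mod_cast h1)
    rw [div_le_iff₀ hδ] at h2
    linarith
  clear hn
  obtain ⟨s, hs⟩ : ∃ s : ℕ, s = k.choose 2 + 1 - D := ⟨_, rfl⟩
  obtain ⟨T, hTdef⟩ : ∃ T : ℝ, T = (r : ℝ) ^ (Fintype.card (Sym2 (Fin n)) - Nat.card G.edgeSet) :=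
    ⟨_, rfl⟩
  have hT0 : 0 < T := by rw [hTdef]; exact pow_pos hr0 _
  obtain ⟨f, hf⟩ : ∃ f : ℝ, f = (Fmax r k s n : ℝ) := ⟨_, rfl⟩
  have hf0 : 0 < f := by
    rw [hf]
    exact_mod_cast Pool.Agent.TH830.J643.Fmax_pos r k s n (Or.inl (by omega))
  rw [← hs, ← hTdef, ← hf]
  -- the canonical structures
  have hr' : 0 < r := by omega
  obtain ⟨st, hst⟩ : ∃ st : Fin n → (Sym2 (Fin n) → Fin r) → ℕ × Finset (Fin r) × (Fin n → ℕ),
      ∀ y ψ, (∃ t, Spec k D r ℓ G {y}ᶜ η ε β δ ψ t) →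
        Spec k D r ℓ G {y}ᶜ η ε β δ ψ (st y ψ) := by
    have h1 : ∀ (y : Fin n) (ψ : Sym2 (Fin n) → Fin r),
        ∃ t : ℕ × Finset (Fin r) × (Fin n → ℕ), (∃ t, Spec k D r ℓ G {y}ᶜ η ε β δ ψ t) →
        Spec k D r ℓ G {y}ᶜ η ε β δ ψ t := by
      intro y ψ
      by_cases h : ∃ t, Spec k D r ℓ G {y}ᶜ η ε β δ ψ t
      · obtain ⟨t, ht⟩ := h
        exact ⟨t, fun _ => ht⟩
      · exact ⟨(0, ∅, fun _ => 0), fun h' => absurd h' h⟩
    choose st hst using h1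
    exact ⟨st, hst⟩
  obtain ⟨b0, -⟩ : ∃ b0 : Fin n → Fin r, True := ⟨fun _ => ⟨0, hr'⟩, trivial⟩
  -- bad stars
  have hB : ∀ y : Fin n, ∑ ψ : Sym2 (Fin n) → Fin r, ind (Good k s G Set.univ ψ ∧
      BadS k D r ℓ G η ε β δ d1 d2 b0 st y ψ) ≤ Real.exp (-(γ / 2 * n)) * (f * T) := by
    intro y
    have h1 := bad_count hO G η ε β δ γ d1 d2 b0 st hst
      (fun p hp G A cls ε ψ hA => (Hc n hn1 p hp G A cls ε ψ hA).1) y
    rw [← hs, ← hTdef] at h1
    refine h1.trans ?_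
    have h2 := Hgr n hn3
    rw [← hs, ← hf] at h2
    have h3 : Real.exp ((Real.log r - ℓ - γ) * n) =
        Real.exp ((Real.log r - ℓ - γ / 2) * n) * Real.exp (-(γ / 2 * n)) := by
      rw [← Real.exp_add]; congr 1; ring
    rw [h3]
    calc (Fmax r k s (n - 1) : ℝ) *
          (Real.exp ((Real.log r - ℓ - γ / 2) * n) * Real.exp (-(γ / 2 * n))) * T
        = ((Fmax r k s (n - 1) : ℝ) * Real.exp ((Real.log r - ℓ - γ / 2) * n)) *
            (Real.exp (-(γ / 2 * n)) * T) := by ring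
      _ ≤ f * (Real.exp (-(γ / 2 * n)) * T) :=
          mul_le_mul_of_nonneg_right h2 (mul_nonneg (Real.exp_pos _).le hT0.le)
      _ = _ := by ring
  have hB2 : ∑ y : Fin n, ∑ ψ : Sym2 (Fin n) → Fin r, ind (Good k s G Set.univ ψ ∧
      BadS k D r ℓ G η ε β δ d1 d2 b0 st y ψ) ≤
      1 / 4 * (Real.exp (-(γ / 4 * n)) * (f * T)) := by
    refine (Finset.sum_le_sum fun y _ => hB y).trans ?_
    rw [Finset.sum_const, Finset.card_univ, Fintype.card_fin, nsmul_eq_mul]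
    have h1 : Real.exp (-(γ / 2 * n)) = Real.exp (-(γ / 4 * n)) * Real.exp (-(γ / 4 * n)) := by
      rw [← Real.exp_add]; congr 1; ring
    have h2 := mul_le_mul_of_nonneg_right (Hs1 n hn4)
      (mul_nonneg (Real.exp_pos (-(γ / 4 * n))).le (mul_pos hf0 hT0).le)
    rw [h1]
    refine le_trans (le_of_eq ?_) h2
    ring
  -- invalid colourings
  have hI : ∑ ψ : Sym2 (Fin n) → Fin r, ind (Good k s G Set.univ ψ ∧
        ¬ ∃ (p : ℕ) (A : Finset (Fin r)) (cls : Fin n → ℕ), IsType k D r ℓ p ∧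
          A.card = ct k D p ∧ Valid G p A cls Set.univ η ε β δ ψ) ≤
      1 / 4 * (Real.exp (-(γ / 4 * n)) * (f * T)) := by
    have h1 := HV n hn2 G
    rw [← hs, ← hTdef] at h1
    refine le_trans h1 ?_
    have h2 := Hlow n hn6
    rw [← hs, ← hf] at h2
    have h3 : Real.exp (((Real.log r - ℓ) / 2 - c) * (n : ℝ) ^ 2) =
        Real.exp ((Real.log r - ℓ) / 2 * (n : ℝ) ^ 2 - K * n) *
          (Real.exp (-(c * (n : ℝ) ^ 2) + (K + γ / 4) * n) * Real.exp (-(γ / 4 * n))) := by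
      rw [← Real.exp_add, ← Real.exp_add]; congr 1; ring
    rw [h3]
    have h5 : Real.exp (-(c * (n : ℝ) ^ 2) + (K + γ / 4) * n) * Real.exp (-(γ / 4 * n)) ≤
        1 / 4 * Real.exp (-(γ / 4 * n)) :=
      mul_le_mul_of_nonneg_right (Hs2 n hn5).le (Real.exp_pos _).le
    have h4 : Real.exp ((Real.log r - ℓ) / 2 * (n : ℝ) ^ 2 - K * n) *
          (Real.exp (-(c * (n : ℝ) ^ 2) + (K + γ / 4) * n) * Real.exp (-(γ / 4 * n))) ≤
          f * (1 / 4 * Real.exp (-(γ / 4 * n))) :=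
      mul_le_mul h2 h5 (mul_nonneg (Real.exp_pos _).le (Real.exp_pos _).le) hf0.le
    calc _ ≤ T * (f * (1 / 4 * Real.exp (-(γ / 4 * n)))) := mul_le_mul_of_nonneg_left h4 hT0.le
      _ = _ := by ring
  -- all good colourings
  have hcov : ∀ ψ : Sym2 (Fin n) → Fin r, ind (Good k s G Set.univ ψ ∧
        ¬ ∃ (p : ℕ) (A : Finset (Fin r)), IsType k D r ℓ p ∧ A.card = ct k D p ∧ Perf G p A ψ) ≤
      ind (Good k s G Set.univ ψ ∧
        ¬ ∃ (p : ℕ) (A : Finset (Fin r)) (cls : Fin n → ℕ), IsType k D r ℓ p ∧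
          A.card = ct k D p ∧ Valid G p A cls Set.univ η ε β δ ψ) +
      (∑ y : Fin n, ind (Good k s G Set.univ ψ ∧ BadS k D r ℓ G η ε β δ d1 d2 b0 st y ψ)) := by
    intro ψ
    have hs0 : 0 ≤ ∑ y : Fin n, ind (Good k s G Set.univ ψ ∧
        BadS k D r ℓ G η ε β δ d1 d2 b0 st y ψ) := Finset.sum_nonneg fun y _ => ind_nonneg _
    have h3 := ind_nonneg (Good k s G Set.univ ψ ∧
            ¬ ∃ (p : ℕ) (A : Finset (Fin r)) (cls : Fin n → ℕ), IsType k D r ℓ p ∧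
            A.card = ct k D p ∧ Valid G p A cls Set.univ η ε β δ ψ)
    by_cases hgp : Good k s G Set.univ ψ ∧
        ¬ ∃ (p : ℕ) (A : Finset (Fin r)), IsType k D r ℓ p ∧ A.card = ct k D p ∧ Perf G p A ψ
    · obtain ⟨hg, hnp⟩ := hgp
      have h0 := ind_le_one (Good k s G Set.univ ψ ∧
        ¬ ∃ (p : ℕ) (A : Finset (Fin r)), IsType k D r ℓ p ∧ A.card = ct k D p ∧ Perf G p A ψ)
      by_cases hv : ∃ (p : ℕ) (A : Finset (Fin r)) (cls : Fin n → ℕ), IsType k D r ℓ p ∧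
          A.card = ct k D p ∧ Valid G p A cls Set.univ η ε β δ ψ
      · by_cases hb : ∃ y, BadS k D r ℓ G η ε β δ d1 d2 b0 st y ψ
        · obtain ⟨y, hy⟩ := hb
          have h1 := Finset.single_le_sum (f := fun y => ind (Good k s G Set.univ ψ ∧
            BadS k D r ℓ G η ε β δ d1 d2 b0 st y ψ)) (fun y _ => ind_nonneg _)
            (Finset.mem_univ y)
          rw [ind_pos (⟨hg, hy⟩ : Good k s G Set.univ ψ ∧
            BadS k D r ℓ G η ε β δ d1 d2 b0 st y ψ)] at h1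
          linarith
        · have h1 := cover hO G η ε β δ d1 d2 b0 st hst hβ hδ hη8 hδ8 hd hεlt hn7
            (fun p hp G A cls ψ hA => (Hc n hn1 p hp G A cls ε ψ hA).2) ψ (by rw [← hs]; exact hg)
            hv (fun y hy => hb ⟨y, hy⟩)
          exact absurd h1 hnp
      · rw [ind_pos (⟨hg, hv⟩ : Good k s G Set.univ ψ ∧
            ¬ ∃ (p : ℕ) (A : Finset (Fin r)) (cls : Fin n → ℕ), IsType k D r ℓ p ∧
            A.card = ct k D p ∧ Valid G p A cls Set.univ η ε β δ ψ)]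
        linarith
    · rw [ind_neg hgp]
      linarith
  have hsum := Finset.sum_le_sum (s := (univ : Finset (Sym2 (Fin n) → Fin r)))
    (fun ψ _ => hcov ψ)
  rw [Finset.sum_add_distrib, Finset.sum_comm (s := univ) (t := (univ : Finset (Fin n)))] at hsum
  have h9 : 0 ≤ Real.exp (-(γ / 4 * n)) * (f * T) :=
    mul_nonneg (Real.exp_pos _).le (mul_pos hf0 hT0).le
  linarith

end Pool.Agent.KS6_79.RK
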